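import Pool.Agent.W802.BA.Stms

set_option autoImplicit false

open MeasureTheory Set Filter Topology

namespace Pool.Agent.W393.BA

open Pool.Agent.W779.Morrey Pool.Agent.W802.BA

section fam
variable {ι : Type} [Fintype ι]

theorem norm_tm_le (k : Fin 2 → ℤ) (A B : E) (x : V) : ‖tm k A B x‖ ≤ ‖A‖ + ‖B‖ := by
  unfold tm
  refine (norm_add_le _ _).trans (add_le_add ?_ ?_)
  · rw [norm_smul, Real.norm_eq_abs]
    exact mul_le_of_le_one_left (norm_nonneg _) (Real.abs_cos_le_one _)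
  · rw [norm_smul, Real.norm_eq_abs]
    exact mul_le_of_le_one_left (norm_nonneg _) (Real.abs_sin_le_one _)

theorem norm_Fam_le (k : ι → Fin 2 → ℤ) (A B : ι → E) {s : ℝ} (h0 : 0 ≤ s) (h1 : s ≤ 1) (x : V) :
    ‖Fam k A B s x‖ ≤ ∑ i, (‖A i‖ + ‖B i‖) := by
  unfold Fam
  refine (norm_sum_le _ _).trans (Finset.sum_le_sum fun i _ => ?_)
  rw [norm_smul, Real.norm_eq_abs, abs_of_nonneg (pow_nonneg h0 _)]
  exact (mul_le_of_le_one_left (norm_nonneg _) (pow_le_one₀ h0 h1)).trans (norm_tm_le _ _ _ _)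

theorem norm_FamD_le (k : ι → Fin 2 → ℤ) (A B : ι → E) (j : Fin 2) {s : ℝ} (h0 : 0 ≤ s)
    (h1 : s ≤ 1) (x : V) :
    ‖Fam k (dA k B j) (dB k A j) s x‖ ≤ (∑ i, (‖dA k B j i‖ + ‖dB k A j i‖)) * s := by
  unfold Fam
  rw [Finset.sum_mul]
  refine (norm_sum_le _ _).trans (Finset.sum_le_sum fun i _ => ?_)
  rw [norm_smul, Real.norm_eq_abs, abs_of_nonneg (pow_nonneg h0 _)]
  rcases Nat.eq_zero_or_pos (nk (k i)) with h | h
  · obtain ⟨hk0, hk1⟩ := nk_eq_zero h
    have hk : k i j = 0 := by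
      fin_cases j
      · exact hk0
      · exact hk1
    have h3 : tm (k i) (dA k B j i) (dB k A j i) x = 0 := by
      simp [tm, dA, dB, hk]
    rw [h3, norm_zero, mul_zero]
    positivity
  · have h3 : s ^ nk (k i) ≤ s := by
      calc s ^ nk (k i) ≤ s ^ 1 := pow_le_pow_of_le_one h0 h1 h
        _ = s := pow_one s
    rw [mul_comm]
    exact mul_le_mul (norm_tm_le _ _ _ _) h3 (pow_nonneg h0 _) (by positivity)

/-- the integrand of the derivative along the flow -/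
noncomputable def uu (W : E → ℝ) (F₀ : E) (k : ι → Fin 2 → ℤ) (A B : ι → E) (p : ℝ × V) : ℝ :=
  fderiv ℝ W (F₀ + Fam k A B p.1 p.2) (dsFam k A B p.1 p.2)

/-- the form along the flow -/
noncomputable def mm (W : E → ℝ) (θ : E → E →L[ℝ] ℝ) (F₀ : E) (k : ι → Fin 2 → ℤ) (A B : ι → E)
    (p : ℝ × V) : ℝ :=
  MF W θ (F₀ + Fam k A B p.1 p.2) (Fam k (dA k B 0) (dB k A 0) p.1 p.2)
    (Fam k (dA k B 1) (dB k A 1) p.1 p.2)

theorem continuous_uu {W : E → ℝ} (hW : ContDiff ℝ 2 W) (F₀ : E) (k : ι → Fin 2 → ℤ)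
    (A B : ι → E) : Continuous (uu W F₀ k A B) := by
  have hP1 : ContDiff ℝ 1 (fderiv ℝ W) := hW.fderiv_right (by norm_num)
  exact (hP1.continuous.comp (continuous_const.add (continuous_Fam_prod k A B))).clm_apply
      (continuous_dsFam_prod k A B)

theorem continuous_mm {W : E → ℝ} {θ : E → E →L[ℝ] ℝ} (hW : ContDiff ℝ 2 W)
    (hθ : ContDiff ℝ 1 θ) (F₀ : E) (k : ι → Fin 2 → ℤ) (A B : ι → E) :
    Continuous (mm W θ F₀ k A B) := by
  have hP1 : ContDiff ℝ 1 (fderiv ℝ W) := hW.fderiv_right (by norm_num)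
  have hHc : Continuous (fderiv ℝ (fderiv ℝ W)) := hP1.continuous_fderiv (by norm_num)
  have hΘc : Continuous (fderiv ℝ θ) := hθ.continuous_fderiv (by norm_num)
  have hFc : Continuous (fun p : ℝ × V => F₀ + Fam k A B p.1 p.2) :=
    continuous_const.add (continuous_Fam_prod k A B)
  have hG : ∀ j, Continuous (fun p : ℝ × V => Fam k (dA k B j) (dB k A j) p.1 p.2) :=
    fun j => continuous_Fam_prod k _ _
  unfold mm MF
  refine Continuous.add (Continuous.add ?_ ?_) (Continuous.sub ?_ ?_)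
  · exact ((hHc.comp hFc).clm_apply (hG 0)).clm_apply (hG 0)
  · exact ((hHc.comp hFc).clm_apply (hG 1)).clm_apply (hG 1)
  · exact ((hΘc.comp hFc).clm_apply (hG 0)).clm_apply (hG 1)
  · exact ((hΘc.comp hFc).clm_apply (hG 1)).clm_apply (hG 0)

/-- the dissipation identity -/
theorem diss_id {W : E → ℝ} {θ : E → E →L[ℝ] ℝ} (hW : ContDiff ℝ 2 W) (hθ : ContDiff ℝ 1 θ)
    (F₀ : E) (k : ι → Fin 2 → ℤ) (A B : ι → E) (s : ℝ) :
    ∫ x in Icc (0 : V) 1, mm W θ F₀ k A B (s, x)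
      = (4 * Real.pi ^ 2 * s) * ∫ x in Icc (0 : V) 1, uu W F₀ k A B (s, x) := by
  have hdis := dissipation hW hθ (fun x => F₀ + Fam k A B s x)
      (fun j => Fam k (dA k B j) (dB k A j) s)
      (fun j l => Fam k (dA k (dB k A j) l) (dB k (dA k B j) l) s)
      (fun x => (hasFDerivAt_Fam k A B s x).const_add F₀)
      (fun j x => hasFDerivAt_Fam k _ _ s x)
      (fun j l => continuous_Fam k _ _ s)
      (fun x => by
        have e1 : dA k (dB k A 0) 1 = dA k (dB k A 1) 0 := by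
          funext i
          simp only [dA, dB, smul_neg, smul_smul]
          ring_nf
        have e2 : dB k (dA k B 0) 1 = dB k (dA k B 1) 0 := by
          funext i
          simp only [dA, dB, smul_smul]
          ring_nf
        rw [e1, e2])
      (fun i x => by rw [Fam_periodic])
      (fun j i x => by rw [Fam_periodic])
  have hmc : Continuous (fun x : V => mm W θ F₀ k A B (s, x)) :=
    (continuous_mm hW hθ F₀ k A B).comp (continuous_const.prodMk continuous_id)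
  have huc : Continuous (fun x : V => uu W F₀ k A B (s, x)) :=
    (continuous_uu hW F₀ k A B).comp (continuous_const.prodMk continuous_id)
  have e : (∫ x in Icc (0 : V) 1, (mm W θ F₀ k A B (s, x)
      - (4 * Real.pi ^ 2 * s) * uu W F₀ k A B (s, x))) = 0 := by
    rw [← hdis]
    refine integral_congr_ae (Eventually.of_forall fun x => ?_)
    have hh := heat k A B s x
    simp only [mm, MF, uu]
    rw [hh, map_smul, smul_eq_mul]
    ring
  have hi1 : Integrable (fun x : V => mm W θ F₀ k A B (s, x)) (volume.restrict (Icc 0 1)) :=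
    hmc.integrableOn_Icc
  have hi2 : Integrable (fun x : V => (4 * Real.pi ^ 2 * s) * uu W F₀ k A B (s, x))
      (volume.restrict (Icc 0 1)) := (continuous_const.mul huc).integrableOn_Icc
  rw [integral_sub hi1 hi2, integral_const_mul] at e
  linarith

/-- the measure on the space-time slab -/
noncomputable def mu : Measure (ℝ × V) :=
  ((volume : Measure ℝ).restrict (Ioc 0 1)).prod ((volume : Measure V).restrict (Icc 0 1))

instance : IsFiniteMeasure mu := by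
  unfold mu
  have : IsFiniteMeasure ((volume : Measure ℝ).restrict (Ioc 0 1)) := by infer_instance
  have : IsFiniteMeasure ((volume : Measure V).restrict (Icc 0 1)) :=
    ⟨by rw [Measure.restrict_apply_univ]; exact isCompact_Icc.measure_lt_top⟩
  infer_instance

theorem integrable_of_cont {f : ℝ × V → ℝ} (hf : Continuous f) : Integrable f mu := by
  unfold mu
  rw [Measure.prod_restrict]
  have h1 : IntegrableOn f (Icc (0:ℝ) 1 ×ˢ Icc (0:V) 1) (volume.prod volume) :=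
    ContinuousOn.integrableOn_compact (isCompact_Icc.prod isCompact_Icc) hf.continuousOn
  exact h1.mono_set (Set.prod_mono Ioc_subset_Icc_self le_rfl)

theorem int_uu {W : E → ℝ} (hW : ContDiff ℝ 2 W) (F₀ : E) (k : ι → Fin 2 → ℤ) (c d : ι → V) :
    ∫ p, uu W F₀ k (grk k c) (grk k d) p ∂mu
      = (∫ x in Icc (0 : V) 1, W (F₀ + Fam k (grk k c) (grk k d) 1 x)) - W F₀ := by
  set A := grk k c with hA
  set B := grk k d with hB
  have hi : Integrable (uu W F₀ k A B) mu := integrable_of_cont (continuous_uu hW F₀ k A B)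
  unfold mu at hi ⊢
  rw [integral_prod_symm _ hi]
  have hd : ∀ x s, HasDerivAt (fun s => W (F₀ + Fam k A B s x)) (uu W F₀ k A B (s, x)) s := by
    intro x s
    have h1 : HasFDerivAt W (fderiv ℝ W (F₀ + Fam k A B s x)) (F₀ + Fam k A B s x) :=
      (hW.differentiable (by norm_num) _).hasFDerivAt
    exact h1.comp_hasDerivAt s ((hasDerivAt_Fam k A B s x).const_add F₀)
  have hftc : ∀ x, ∫ s in Ioc (0:ℝ) 1, uu W F₀ k A B (s, x)
      = W (F₀ + Fam k A B 1 x) - W F₀ := by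
    intro x
    rw [← intervalIntegral.integral_of_le zero_le_one,
      intervalIntegral.integral_eq_sub_of_hasDerivAt (fun s _ => hd x s)]
    · rw [hA, hB, Fam_zero, add_zero]
    · refine Continuous.intervalIntegrable ?_ _ _
      exact (continuous_uu hW F₀ k A B).comp (continuous_id.prodMk continuous_const)
  rw [integral_congr_ae (Eventually.of_forall hftc), integral_sub]
  · simp [Measure.real]
  · exact (hW.continuous.comp (continuous_const.add (continuous_Fam k A B 1))).integrableOn_Icc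
  · exact continuous_const.integrableOn_Icc

/-- the negative part of the form, divided by the factor of the heat equation -/
noncomputable def gg (W : E → ℝ) (θ : E → E →L[ℝ] ℝ) (F₀ : E) (k : ι → Fin 2 → ℤ) (A B : ι → E)
    (p : ℝ × V) : ℝ :=
  min (mm W θ F₀ k A B p) 0 * (4 * Real.pi ^ 2 * p.1)⁻¹

theorem measurable_gg {W : E → ℝ} {θ : E → E →L[ℝ] ℝ} (hW : ContDiff ℝ 2 W)
    (hθ : ContDiff ℝ 1 θ) (F₀ : E) (k : ι → Fin 2 → ℤ) (A B : ι → E) :
    Measurable (gg W θ F₀ k A B) := by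
  unfold gg
  refine Measurable.mul ?_ ?_
  · exact ((continuous_mm hW hθ F₀ k A B).min continuous_const).measurable
  · exact (measurable_fst.const_mul _).inv

theorem int_le {W : E → ℝ} {θ : E → E →L[ℝ] ℝ} (hW : ContDiff ℝ 2 W)
    (hθ : ContDiff ℝ 1 θ) (F₀ : E) (k : ι → Fin 2 → ℤ) (A B : ι → E)
    (hi : Integrable (gg W θ F₀ k A B) mu) :
    ∫ p, gg W θ F₀ k A B p ∂mu ≤ ∫ p, uu W F₀ k A B p ∂mu := by
  have hi2 : Integrable (uu W F₀ k A B) mu := integrable_of_cont (continuous_uu hW F₀ k A B)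
  unfold mu at hi hi2 ⊢
  rw [integral_prod _ hi, integral_prod _ hi2]
  have h1 := hi.integral_prod_left
  have h2 := hi2.integral_prod_left
  refine integral_mono_ae h1 h2 ?_
  rw [EventuallyLE, ae_restrict_iff' measurableSet_Ioc]
  filter_upwards with s hs
  have hs0 : 0 < 4 * Real.pi ^ 2 * s := by
    have := hs.1
    positivity
  have hmc : Continuous (fun x : V => mm W θ F₀ k A B (s, x)) :=
    (continuous_mm hW hθ F₀ k A B).comp (continuous_const.prodMk continuous_id)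
  have e := diss_id hW hθ F₀ k A B s
  have e2 : ∫ x in Icc (0 : V) 1, uu W F₀ k A B (s, x)
      = ∫ x in Icc (0 : V) 1, mm W θ F₀ k A B (s, x) * (4 * Real.pi ^ 2 * s)⁻¹ := by
    rw [integral_mul_const, e, mul_comm, ← mul_assoc, inv_mul_cancel₀ hs0.ne', one_mul]
  rw [e2]
  have i1 : IntegrableOn (fun x : V => min (mm W θ F₀ k A B (s, x)) 0
      * (4 * Real.pi ^ 2 * s)⁻¹) (Icc (0 : V) 1) volume :=
    ((hmc.min continuous_const).mul continuous_const).integrableOn_Icc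
  have i2 : IntegrableOn (fun x : V => mm W θ F₀ k A B (s, x)
      * (4 * Real.pi ^ 2 * s)⁻¹) (Icc (0 : V) 1) volume :=
    (hmc.mul continuous_const).integrableOn_Icc
  refine integral_mono i1 i2 fun x => ?_
  · exact mul_le_mul_of_nonneg_right (min_le_left _ _) (inv_nonneg.2 hs0.le)

theorem ae_mem_mu : ∀ᵐ p : ℝ × V ∂mu, 0 < p.1 ∧ p.1 ≤ 1 := by
  unfold mu
  rw [Measure.prod_restrict, ae_restrict_iff' (measurableSet_Ioc.prod measurableSet_Icc)]
  filter_upwards with p hp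
  exact ⟨hp.1.1, hp.1.2⟩

theorem arith {C D0 D1 s n0 n1 : ℝ} (hn0 : 0 ≤ n0) (hn1 : 0 ≤ n1) (h0 : n0 ≤ D0 * s)
    (h1 : n1 ≤ D1 * s) :
    -(|C| * (D0 ^ 2 + D1 ^ 2) * s ^ 2) ≤ -(C * (n0 ^ 2 + n1 ^ 2)) := by
  have g0 := pow_le_pow_left₀ hn0 h0 2
  have g1 := pow_le_pow_left₀ hn1 h1 2
  have h2 : n0 ^ 2 + n1 ^ 2 ≤ (D0 ^ 2 + D1 ^ 2) * s ^ 2 := by
    rw [mul_pow] at g0 g1
    linarith
  have h3 : C * (n0 ^ 2 + n1 ^ 2) ≤ |C| * (n0 ^ 2 + n1 ^ 2) :=
    mul_le_mul_of_nonneg_right (le_abs_self C) (by positivity)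
  have h4 : |C| * (n0 ^ 2 + n1 ^ 2) ≤ |C| * ((D0 ^ 2 + D1 ^ 2) * s ^ 2) :=
    mul_le_mul_of_nonneg_left h2 (abs_nonneg C)
  linarith

/-- the bound for the negative part -/
theorem low_mm {W : E → ℝ} {θ : E → E →L[ℝ] ℝ} {F₀ : E} {k : ι → Fin 2 → ℤ} {A B : ι → E}
    {C R D0 D1 s : ℝ} {x : V}
    (hC : ∀ F G₀ G₁, ‖F‖ ≤ R → -(C * (‖G₀‖ ^ 2 + ‖G₁‖ ^ 2)) ≤ MF W θ F G₀ G₁)
    (hF : ‖F₀ + Fam k A B s x‖ ≤ R) (h0 : ‖Fam k (dA k B 0) (dB k A 0) s x‖ ≤ D0 * s)
    (h1 : ‖Fam k (dA k B 1) (dB k A 1) s x‖ ≤ D1 * s) :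
    -(|C| * (D0 ^ 2 + D1 ^ 2) * s ^ 2) ≤ min (mm W θ F₀ k A B (s, x)) 0 := by
  refine le_min ?_ ?_
  · have h3 := hC (F₀ + Fam k A B s x) (Fam k (dA k B 0) (dB k A 0) s x)
      (Fam k (dA k B 1) (dB k A 1) s x) hF
    exact le_trans (arith (norm_nonneg _) (norm_nonneg _) h0 h1) h3
  · have : 0 ≤ |C| * (D0 ^ 2 + D1 ^ 2) * s ^ 2 := by positivity
    linarith

theorem norm_gg_le {W : E → ℝ} {θ : E → E →L[ℝ] ℝ} {F₀ : E} {k : ι → Fin 2 → ℤ} {A B : ι → E}
    {K : ℝ} (hK0 : 0 ≤ K) {p : ℝ × V} (h0 : 0 < p.1) (h1 : p.1 ≤ 1)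
    (h : -(K * p.1 ^ 2) ≤ min (mm W θ F₀ k A B p) 0) : ‖gg W θ F₀ k A B p‖ ≤ K := by
  have h4 : min (mm W θ F₀ k A B p) 0 ≤ 0 := min_le_right _ _
  unfold gg
  generalize min (mm W θ F₀ k A B p) 0 = m at h h4
  generalize p.1 = s at h0 h1 h
  have hpi : 1 ≤ 4 * Real.pi ^ 2 := by
    have := Real.pi_gt_three
    nlinarith
  have h5 : 0 < 4 * Real.pi ^ 2 * s := by positivity
  rw [norm_mul, Real.norm_eq_abs, Real.norm_eq_abs, abs_of_nonpos h4,
    abs_of_pos (inv_pos.2 h5)]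
  have h6 : -m ≤ K * s ^ 2 := by linarith
  refine (mul_le_mul_of_nonneg_right h6 (inv_pos.2 h5).le).trans ?_
  rw [← div_eq_mul_inv, div_le_iff₀ h5]
  have h7 : s ^ 2 ≤ s := by nlinarith
  have h8 : s ≤ 4 * Real.pi ^ 2 * s := by nlinarith
  exact mul_le_mul_of_nonneg_left (h7.trans h8) hK0

/-- pointwise convergence of the negative parts -/
theorem tendsto_gg {Wk : ℕ → E → ℝ} {θk : ℕ → E → E →L[ℝ] ℝ} {F₀ : E} {k : ι → Fin 2 → ℤ}
    {A B : ι → E} {p : ℝ × V}
    (hl : ∀ δ : ℝ, 0 < δ → ∀ᶠ n in atTop, -δ ≤ mm (Wk n) (θk n) F₀ k A B p) :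
    Tendsto (fun n => gg (Wk n) (θk n) F₀ k A B p) atTop (𝓝 0) := by
  have hm0 : Tendsto (fun n => min (mm (Wk n) (θk n) F₀ k A B p) 0) atTop (𝓝 0) := by
    rw [Metric.tendsto_atTop]
    intro δ hδ
    obtain ⟨N, hN⟩ := eventually_atTop.1 (hl (δ / 2) (by linarith))
    refine ⟨N, fun n hn => ?_⟩
    have h3 := hN n hn
    have h4 : -(δ / 2) ≤ min (mm (Wk n) (θk n) F₀ k A B p) 0 := le_min h3 (by linarith)
    have h5 : min (mm (Wk n) (θk n) F₀ k A B p) 0 ≤ 0 := min_le_right _ _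
    rw [Real.dist_eq, sub_zero, abs_of_nonpos h5]
    linarith
  have h6 := hm0.mul_const (4 * Real.pi ^ 2 * p.1)⁻¹
  rw [zero_mul] at h6
  exact h6

theorem pP_ne {F : E} (h : a1 F ≠ 0) : pP F ≠ 0 := by
  unfold pP
  have := sq_nonneg (a2 F)
  have h2 : 0 < a1 F ^ 2 := by positivity
  linarith

theorem pQ_ne {F : E} (h : b1 F ≠ 0) : pQ F ≠ 0 := by
  unfold pQ
  have := sq_nonneg (b2 F)
  have h2 : 0 < b1 F ^ 2 := by positivity
  linarith

/-- the direction in which the base point is moved -/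
def ee : E := fun i j => if i = 0 ∧ j = 0 then 2 else 0

theorem a1_ee : a1 ee = 1 := by rw [a1_apply]; simp [ee]

theorem b1_ee : b1 ee = 1 := by rw [b1_apply]; simp [ee]

/-- the inequality at a base point such that almost everywhere both parts do not vanish -/
theorem good {W : E → ℝ} {Wk : ℕ → E → ℝ} {θk : ℕ → E → E →L[ℝ] ℝ}
    (hWk : ∀ n, ContDiff ℝ 2 (Wk n)) (hθk : ∀ n, ContDiff ℝ 1 (θk n))
    (hlim : ∀ F, Tendsto (fun n => Wk n F) atTop (𝓝 (W F)))
    (hbd : ∀ R : ℝ, ∃ C : ℝ, ∀ n F, ‖F‖ ≤ R → |Wk n F| ≤ C)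
    (hlow : ∀ R : ℝ, ∃ C : ℝ, ∀ n F G₀ G₁, ‖F‖ ≤ R →
      -(C * (‖G₀‖ ^ 2 + ‖G₁‖ ^ 2)) ≤ MF (Wk n) (θk n) F G₀ G₁)
    (hloc : ∀ F G₀ G₁ : E, pP F ≠ 0 → pQ F ≠ 0 → (∀ r, G₀ r 1 = G₁ r 0) →
      ∀ δ : ℝ, 0 < δ → ∀ᶠ n in atTop, -δ ≤ MF (Wk n) (θk n) F G₀ G₁)
    (F1 : E) (k : ι → Fin 2 → ℤ) (c d : ι → V)
    (hae1 : ∀ᵐ p : ℝ × V ∂mu, a1 (F1 + Fam k (grk k c) (grk k d) p.1 p.2) ≠ 0)
    (hae2 : ∀ᵐ p : ℝ × V ∂mu, b1 (F1 + Fam k (grk k c) (grk k d) p.1 p.2) ≠ 0) :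
    W F1 ≤ ∫ x in Icc (0 : V) 1, W (F1 + Fam k (grk k c) (grk k d) 1 x) := by
  obtain ⟨R, hRb⟩ : ∃ R : ℝ, ∀ s x, 0 ≤ s → s ≤ 1 →
      ‖F1 + Fam k (grk k c) (grk k d) s x‖ ≤ R := ⟨_, fun s x hs0 hs1 =>
      (norm_add_le _ _).trans (add_le_add le_rfl (norm_Fam_le k (grk k c) (grk k d) hs0 hs1 x))⟩
  obtain ⟨C, hC⟩ := hlow R
  obtain ⟨K, hK0, hmin⟩ : ∃ K : ℝ, 0 ≤ K ∧ ∀ n, ∀ p : ℝ × V, 0 ≤ p.1 → p.1 ≤ 1 →
      -(K * p.1 ^ 2) ≤ min (mm (Wk n) (θk n) F1 k (grk k c) (grk k d) p) 0 := by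
    refine ⟨_, ?_, fun n p h0 h1 => low_mm (hC n) (hRb p.1 p.2 h0 h1)
      (norm_FamD_le k (grk k c) (grk k d) 0 h0 h1 p.2)
      (norm_FamD_le k (grk k c) (grk k d) 1 h0 h1 p.2)⟩
    positivity
  have hggb : ∀ n, ∀ p : ℝ × V, 0 < p.1 → p.1 ≤ 1 →
      ‖gg (Wk n) (θk n) F1 k (grk k c) (grk k d) p‖ ≤ K :=
    fun n p h0 h1 => norm_gg_le hK0 h0 h1 (hmin n p h0.le h1)
  have hggi : ∀ n, Integrable (gg (Wk n) (θk n) F1 k (grk k c) (grk k d)) mu := fun n =>
    Integrable.of_bound (measurable_gg (hWk n) (hθk n) F1 k _ _).aestronglyMeasurable K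
      (ae_mem_mu.mono fun p hp => hggb n p hp.1 hp.2)
  have hgg0 : Tendsto (fun n => ∫ p, gg (Wk n) (θk n) F1 k (grk k c) (grk k d) p ∂mu) atTop
      (𝓝 (∫ _p, (0 : ℝ) ∂mu)) := by
    refine tendsto_integral_of_dominated_convergence (fun _ => K)
      (fun n => (hggi n).aestronglyMeasurable) (integrable_const K)
      (fun n => ae_mem_mu.mono fun p hp => hggb n p hp.1 hp.2) ?_
    filter_upwards [hae1, hae2] with p hp1 hp2
    refine tendsto_gg fun δ hδ => ?_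
    exact hloc _ _ _ (pP_ne hp1) (pQ_ne hp2) (fun r => by
      simp only [Fam, Finset.sum_apply, Pi.smul_apply, tm, dA, dB, Pi.add_apply, Pi.neg_apply,
        smul_eq_mul, grk]
      refine Finset.sum_congr rfl fun i _ => ?_
      ring) δ hδ
  rw [integral_zero] at hgg0
  have hF1c : Continuous (Fam k (grk k c) (grk k d) 1) := continuous_Fam k _ _ 1
  have hΦn : Tendsto (fun n => ∫ p, uu (Wk n) F1 k (grk k c) (grk k d) p ∂mu) atTop
      (𝓝 ((∫ x in Icc (0 : V) 1, W (F1 + Fam k (grk k c) (grk k d) 1 x)) - W F1)) := by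
    have e1 : ∀ n, ∫ p, uu (Wk n) F1 k (grk k c) (grk k d) p ∂mu
        = (∫ x in Icc (0 : V) 1, Wk n (F1 + Fam k (grk k c) (grk k d) 1 x)) - Wk n F1 :=
      fun n => int_uu (hWk n) F1 k c d
    simp only [e1]
    refine Tendsto.sub ?_ (hlim F1)
    obtain ⟨C2, hC2⟩ := hbd R
    have hfin : IsFiniteMeasure ((volume : Measure V).restrict (Icc 0 1)) :=
      ⟨by rw [Measure.restrict_apply_univ]; exact isCompact_Icc.measure_lt_top⟩
    refine tendsto_integral_of_dominated_convergence (fun _ => C2) (fun n => ?_)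
      (integrable_const C2) (fun n => Eventually.of_forall fun x => ?_)
      (Eventually.of_forall fun x => hlim _)
    · exact ((hWk n).continuous.comp (continuous_const.add hF1c)).aestronglyMeasurable
    · exact hC2 n _ (hRb 1 x zero_le_one le_rfl)
  have := le_of_tendsto_of_tendsto' hgg0 hΦn fun n => int_le (hWk n) (hθk n) F1 k _ _ (hggi n)
  linarith

end fam

/-- BA-FLOW: the heat flow argument for a sequence of approximate certificates. -/
theorem flow : S_Flow := by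
  intro W Wk θk hW hWk hθk hlim hbd hlow hloc ι _ F₀ k c d
  have hFc : Continuous (fun p : ℝ × V => Fam k (grk k c) (grk k d) p.1 p.2) :=
    continuous_Fam_prod k _ _
  have hF1c : Continuous (Fam k (grk k c) (grk k d) 1) := continuous_Fam k _ _ 1
  -- the exceptional values
  have hS1 := Measure.countable_meas_level_set_pos (μ := mu)
    (g := fun p : ℝ × V => a1 (F₀ + Fam k (grk k c) (grk k d) p.1 p.2))
    (a1.continuous.comp (continuous_const.add hFc)).measurable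
  have hS2 := Measure.countable_meas_level_set_pos (μ := mu)
    (g := fun p : ℝ × V => b1 (F₀ + Fam k (grk k c) (grk k d) p.1 p.2))
    (b1.continuous.comp (continuous_const.add hFc)).measurable
  have hbad := (hS1.union hS2).image (fun t : ℝ => -t)
  have hΦc : Continuous (fun h : ℝ =>
      (∫ x in Icc (0 : V) 1, W (F₀ + h • ee + Fam k (grk k c) (grk k d) 1 x))
        - W (F₀ + h • ee)) := by
    refine Continuous.sub ?_ ?_
    · refine continuous_parametric_integral_of_continuous ?_ isCompact_Icc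
      refine hW.comp ?_
      exact (continuous_const.add (continuous_fst.smul continuous_const)).add
        (hF1c.comp continuous_snd)
    · exact hW.comp (continuous_const.add (continuous_id.smul continuous_const))
  have hclosed := isClosed_le continuous_const hΦc (f := fun _ : ℝ => (0 : ℝ))
  have hdense := hbad.dense_compl ℝ
  have hsub : ∀ h : ℝ, h ∈ ((fun t : ℝ => -t) ''
      ({t : ℝ | 0 < mu {a | a1 (F₀ + Fam k (grk k c) (grk k d) a.1 a.2) = t}} ∪
      {t : ℝ | 0 < mu {a | b1 (F₀ + Fam k (grk k c) (grk k d) a.1 a.2) = t}}))ᶜ →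
      (0 : ℝ) ≤ (∫ x in Icc (0 : V) 1, W (F₀ + h • ee + Fam k (grk k c) (grk k d) 1 x))
        - W (F₀ + h • ee) := by
    intro h hh
    have hz1 : mu {p : ℝ × V | a1 (F₀ + Fam k (grk k c) (grk k d) p.1 p.2) = -h} = 0 := by
      by_contra hne
      exact hh ⟨-h, Or.inl (pos_iff_ne_zero.2 hne), neg_neg h⟩
    have hz2 : mu {p : ℝ × V | b1 (F₀ + Fam k (grk k c) (grk k d) p.1 p.2) = -h} = 0 := by
      by_contra hne
      exact hh ⟨-h, Or.inr (pos_iff_ne_zero.2 hne), neg_neg h⟩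
    have hae1 : ∀ᵐ p : ℝ × V ∂mu, a1 (F₀ + h • ee + Fam k (grk k c) (grk k d) p.1 p.2) ≠ 0 := by
      have h3 : ∀ᵐ p : ℝ × V ∂mu, a1 (F₀ + Fam k (grk k c) (grk k d) p.1 p.2) ≠ -h := by
        rw [ae_iff]
        simpa using hz1
      filter_upwards [h3] with p hp h4
      rw [add_right_comm, map_add, map_smul, a1_ee, smul_eq_mul, mul_one] at h4
      exact hp (by linarith)
    have hae2 : ∀ᵐ p : ℝ × V ∂mu, b1 (F₀ + h • ee + Fam k (grk k c) (grk k d) p.1 p.2) ≠ 0 := by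
      have h3 : ∀ᵐ p : ℝ × V ∂mu, b1 (F₀ + Fam k (grk k c) (grk k d) p.1 p.2) ≠ -h := by
        rw [ae_iff]
        simpa using hz2
      filter_upwards [h3] with p hp h4
      rw [add_right_comm, map_add, map_smul, b1_ee, smul_eq_mul, mul_one] at h4
      exact hp (by linarith)
    have := good hWk hθk hlim hbd hlow hloc (F₀ + h • ee) k c d hae1 hae2
    linarith
  have h1 := hclosed.closure_subset_iff.2 (fun h hh => hsub h hh) (hdense 0)
  have h2 : (0 : ℝ) ≤ (∫ x in Icc (0 : V) 1,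
      W (F₀ + (0 : ℝ) • ee + Fam k (grk k c) (grk k d) 1 x)) - W (F₀ + (0 : ℝ) • ee) := h1
  simp only [zero_smul, add_zero] at h2
  linarith

end Pool.Agent.W393.BA
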